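import Mathlib

set_option autoImplicit false

open Finset

namespace Pool.Agent.H93R2

/-- few nonzero entries with many vanishing moments imply zero -/
theorem support_card {a : ℕ} (D : ℕ) (v : Fin a → ℂ) (hv : v ≠ 0)
    (hm : ∀ m < D, ∑ i : Fin a, v i * ((i : ℕ) : ℂ) ^ m = 0) :
    D + 1 ≤ (univ.filter fun i => v i ≠ 0).card := by
  classical
  by_contra hcon
  push Not at hcon
  obtain ⟨i0, hi0⟩ : ∃ i, v i ≠ 0 := by
    by_contra h
    push Not at h
    exact hv (funext h)
  set T := univ.filter fun i => v i ≠ 0 with hT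
  have hi0T : i0 ∈ T := by simp [hT, hi0]
  let p : Polynomial ℂ := ∏ j ∈ T.erase i0, (Polynomial.X - Polynomial.C ((j : ℕ) : ℂ))
  have hdeg : p.natDegree < D := by
    have h1 : p.natDegree = (T.erase i0).card := by
      simp only [p]
      rw [Polynomial.natDegree_finsetProd_X_sub_C_eq_card]
    rw [h1, card_erase_of_mem hi0T]
    have := card_pos.2 ⟨i0, hi0T⟩
    omega
  have h2 : ∑ i : Fin a, v i * p.eval ((i : ℕ) : ℂ) = 0 := by
    have h3 : ∀ i : Fin a, v i * p.eval ((i : ℕ) : ℂ) =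
        ∑ m ∈ range D, p.coeff m * (v i * ((i : ℕ) : ℂ) ^ m) := by
      intro i
      rw [Polynomial.eval_eq_sum_range' hdeg, mul_sum]
      refine sum_congr rfl fun m _ => ?_
      ring
    simp only [h3]
    rw [sum_comm]
    refine sum_eq_zero fun m hmm => ?_
    rw [← mul_sum, hm m (mem_range.1 hmm), mul_zero]
  have h4 : ∑ i : Fin a, v i * p.eval ((i : ℕ) : ℂ) = v i0 * p.eval ((i0 : ℕ) : ℂ) := by
    refine sum_eq_single i0 ?_ (fun h => absurd (mem_univ _) h)
    intro i _ hi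
    by_cases hvi : v i = 0
    · rw [hvi, zero_mul]
    · have hiT : i ∈ T.erase i0 := by
        rw [mem_erase]; exact ⟨hi, by simp [hT, hvi]⟩
      have : p.eval ((i : ℕ) : ℂ) = 0 := by
        simp only [p]
        rw [Polynomial.eval_prod]
        exact prod_eq_zero hiT (by simp)
      rw [this, mul_zero]
  rw [h4] at h2
  rcases mul_eq_zero.1 h2 with h | h
  · exact hi0 h
  · simp only [p] at h
    rw [Polynomial.eval_prod, prod_eq_zero_iff] at h
    obtain ⟨j, hj, hj2⟩ := h
    simp only [Polynomial.eval_sub, Polynomial.eval_X, Polynomial.eval_C, sub_eq_zero,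
      Nat.cast_inj] at hj2
    rw [mem_erase] at hj
    exact hj.1 (Fin.ext hj2.symm)

/-- sum along the rows of the diagonal `c` -/
noncomputable def dg {a b : ℕ} (c : ℤ) (M : Fin a → Fin b → ℂ) (i : Fin a) : ℂ :=
  ∑ j : Fin b, if ((j : ℕ) : ℤ) - (i : ℕ) = c then M i j else 0

/-- the first `D` moments of every diagonal vanish -/
def Good (D : ℕ) {a b : ℕ} (M : Fin a → Fin b → ℂ) : Prop :=
  ∀ c : ℤ, ∀ m < D, ∑ i : Fin a, dg c M i * ((i : ℕ) : ℂ) ^ m = 0

theorem dg_eq {a b : ℕ} (c : ℤ) (M : Fin a → Fin b → ℂ) (i : Fin a) (j : Fin b)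
    (h : ((j : ℕ) : ℤ) - (i : ℕ) = c) : dg c M i = M i j := by
  unfold dg
  rw [sum_eq_single j]
  · rw [if_pos h]
  · intro j' _ hj'
    rw [if_neg]
    intro h'
    apply hj'
    ext
    omega
  · intro h; exact absurd (mem_univ _) h

theorem dg_zero {a b : ℕ} (c : ℤ) (M : Fin a → Fin b → ℂ) (i : Fin a)
    (h : dg c M i ≠ 0) : ∃ j : Fin b, ((j : ℕ) : ℤ) - (i : ℕ) = c ∧ M i j ≠ 0 := by
  unfold dg at h
  obtain ⟨j, _, hj⟩ := exists_ne_zero_of_sum_ne_zero h
  by_cases hc : ((j : ℕ) : ℤ) - (i : ℕ) = c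
  · rw [if_pos hc] at hj
    exact ⟨j, hc, hj⟩
  · rw [if_neg hc] at hj
    exact absurd rfl hj

/-- the coefficients of `(x-1)^D` -/
def cf (D s : ℕ) : ℂ := (((-1 : ℤ) ^ (D - s) * (D.choose s) : ℤ) : ℂ)

theorem cf_zero (D : ℕ) : cf D 0 ≠ 0 := by
  simp [cf]

theorem cf_big (D s : ℕ) (h : D < s) : cf D s = 0 := by
  simp [cf, Nat.choose_eq_zero_of_lt h]

theorem cf_sum (D m : ℕ) (h : m < D) (p : ℕ) :
    ∑ s ∈ range (D + 1), cf D s * ((p + s : ℕ) : ℂ) ^ m = 0 := by
  have h1 := congrFun (fwdDiff_iter_pow_eq_zero_of_lt (R := ℂ) h) (p : ℂ)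
  rw [fwdDiff_iter_eq_sum_shift] at h1
  simp only [Pi.zero_apply] at h1
  rw [← h1]
  refine sum_congr rfl fun s _ => ?_
  rw [zsmul_eq_mul]
  unfold cf
  push_cast
  simp

/-- basis matrices -/
def Mb (a b D p q : ℕ) : Fin a → Fin b → ℂ := fun i j =>
  if p ≤ (i : ℕ) ∧ q ≤ (j : ℕ) ∧ (i : ℕ) - p = (j : ℕ) - q then cf D ((i : ℕ) - p) else 0

theorem Mb_good (a b D p q : ℕ) (hp : p + D < a) (hq : q + D < b) : Good D (Mb a b D p q) := by
  intro c m hm
  by_cases hc : c = (q : ℤ) - p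
  · subst hc
    have h1 : ∀ i : Fin a, dg ((q : ℤ) - p) (Mb a b D p q) i =
        if p ≤ (i : ℕ) then cf D ((i : ℕ) - p) else 0 := by
      intro i
      by_cases hi : p ≤ (i : ℕ)
      · rw [if_pos hi]
        by_cases hj : q + ((i : ℕ) - p) < b
        · rw [dg_eq _ _ i ⟨q + ((i : ℕ) - p), hj⟩ (by push_cast; omega)]
          unfold Mb
          rw [if_pos]
          refine ⟨hi, ?_, ?_⟩ <;> simp
        · rw [cf_big D _ (by omega)]
          unfold dg
          refine sum_eq_zero fun j _ => ?_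
          rw [if_neg]
          intro h
          have := j.2
          omega
      · rw [if_neg hi]
        unfold dg
        refine sum_eq_zero fun j _ => ?_
        split_ifs
        · unfold Mb
          rw [if_neg]
          rintro ⟨h1, _⟩
          exact hi h1
        · rfl
    simp only [h1]
    rw [Fin.sum_univ_eq_sum_range (fun i => (if p ≤ i then cf D (i - p) else 0) * (i : ℂ) ^ m) a]
    have h2 : Ico p (p + (D + 1)) ⊆ range a := by
      intro x hx
      rw [mem_Ico] at hx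
      rw [mem_range]
      omega
    rw [← sum_subset h2, sum_Ico_eq_sum_range]
    · have h3 : p + (D + 1) - p = D + 1 := by omega
      rw [h3, ← cf_sum D m hm p]
      refine sum_congr rfl fun s _ => ?_
      rw [if_pos (by omega), Nat.add_sub_cancel_left]
    · intro x _ hx
      rw [mem_Ico] at hx
      by_cases hpx : p ≤ x
      · rw [if_pos hpx, cf_big D _ (by omega), zero_mul]
      · rw [if_neg hpx, zero_mul]
  · refine sum_eq_zero fun i _ => ?_
    have : dg c (Mb a b D p q) i = 0 := by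
      unfold dg
      refine sum_eq_zero fun j _ => ?_
      split_ifs with h
      · unfold Mb
        rw [if_neg]
        rintro ⟨h1, h2, h3⟩
        apply hc
        omega
      · rfl
    rw [this, zero_mul]

theorem dg_sum {a b : ℕ} {ι : Type*} (s : Finset ι) (c : ℤ) (M : ι → Fin a → Fin b → ℂ) (x : ι → ℂ)
    (i : Fin a) : dg c (fun i j => ∑ t ∈ s, x t * M t i j) i = ∑ t ∈ s, x t * dg c (M t) i := by
  unfold dg
  simp only [mul_sum]
  rw [sum_comm]
  refine sum_congr rfl fun j _ => ?_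
  split_ifs
  · rfl
  · simp

theorem good_sum {D a b : ℕ} {ι : Type*} (s : Finset ι) (M : ι → Fin a → Fin b → ℂ) (x : ι → ℂ)
    (h : ∀ t ∈ s, Good D (M t)) : Good D (fun i j => ∑ t ∈ s, x t * M t i j) := by
  intro c m hm
  simp only [dg_sum, sum_mul]
  rw [sum_comm]
  refine sum_eq_zero fun t ht => ?_
  have := h t ht c m hm
  calc _ = x t * ∑ i : Fin a, dg c (M t) i * ((i : ℕ) : ℂ) ^ m := by
        rw [mul_sum]
        refine sum_congr rfl fun i _ => ?_
        ring
    _ = 0 := by rw [this, mul_zero]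

end Pool.Agent.H93R2
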