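import Mathlib

set_option autoImplicit false

open MvPolynomial

namespace Pool.Agent.H93R2

theorem hc_mul {σ R : Type*} [CommSemiring R] (g f : MvPolynomial σ R) (e n : ℕ)
    (hf : f.IsHomogeneous e) (hn : e ≤ n) :
    homogeneousComponent n (g * f) = homogeneousComponent (n - e) g * f := by
  conv_lhs => rw [← sum_homogeneousComponent g, Finset.sum_mul, map_sum]
  have h1 : ∀ i, homogeneousComponent n (homogeneousComponent i g * f) =
      if i = n - e then homogeneousComponent (n - e) g * f else 0 := by
    intro i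
    have h2 : (homogeneousComponent i g * f).IsHomogeneous (i + e) :=
      (homogeneousComponent_isHomogeneous i g).mul hf
    rw [homogeneousComponent_of_mem h2]
    by_cases h : i = n - e
    · subst h
      rw [if_pos (by omega), if_pos rfl]
    · rw [if_neg (by omega), if_neg h]
  simp only [h1, Finset.sum_ite_eq', Finset.mem_range]
  split_ifs with h
  · rfl
  · rw [homogeneousComponent_eq_zero _ _ (by omega), zero_mul]

/-- Nullstellensatz for systems with only the trivial zero. -/
theorem exists_pow_mem {σ : Type*} [Finite σ] (I : Ideal (MvPolynomial σ ℂ))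
    (h0 : ∀ x : σ → ℂ, (∀ p ∈ I, eval x p = 0) → x = 0) :
    ∃ N : ℕ, ∀ s : σ, (X s : MvPolynomial σ ℂ) ^ N ∈ I := by
  have h1 : ∀ s : σ, ∃ N : ℕ, (X s : MvPolynomial σ ℂ) ^ N ∈ I := by
    intro s
    have h2 : (X s : MvPolynomial σ ℂ) ∈ vanishingIdeal ℂ (zeroLocus ℂ I) := by
      intro x hx
      have h3 : x = 0 := by
        apply h0
        intro p hp
        have := hx p hp
        simpa [aeval_def] using this
      subst h3
      simp
    rw [vanishingIdeal_zeroLocus_eq_radical] at h2
    exact h2
  choose N hN using h1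
  cases nonempty_fintype σ
  refine ⟨∑ s, N s, fun s => ?_⟩
  exact I.pow_mem_of_pow_mem (hN s) (Finset.single_le_sum (fun _ _ => Nat.zero_le _) (Finset.mem_univ s))

/-- Every monomial of large degree is a combination of homogeneous equations, with homogeneous
coefficients. -/
theorem exists_homog_comb {σ ι : Type*} [Fintype σ] [Fintype ι] (e : ℕ) (f : ι → MvPolynomial σ ℂ)
    (hf : ∀ i, (f i).IsHomogeneous e)
    (h0 : ∀ x : σ → ℂ, (∀ i, eval x (f i) = 0) → x = 0) :
    ∃ n : ℕ, 1 ≤ n ∧ ∀ μ : σ →₀ ℕ, μ.degree = n → ∃ g : ι → MvPolynomial σ ℂ,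
      (∀ i, (g i).IsHomogeneous (n - e)) ∧ e ≤ n ∧ monomial μ (1 : ℂ) = ∑ i, g i * f i := by
  obtain ⟨N, hN⟩ := exists_pow_mem (Ideal.span (Set.range f)) (by
    intro x hx
    apply h0
    intro i
    exact hx _ (Ideal.subset_span ⟨i, rfl⟩))
  refine ⟨Fintype.card σ * N + e + 1, by omega, fun μ hμ => ?_⟩
  have hmem : monomial μ (1 : ℂ) ∈ Ideal.span (Set.range f) := by
    have : ∃ s, N ≤ μ s := by
      by_contra hcon
      push Not at hcon
      have h1 : μ.degree ≤ Fintype.card σ * N := by
        rw [Finsupp.degree_eq_sum]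
        calc ∑ i, μ i ≤ ∑ _i : σ, N := Finset.sum_le_sum (fun i _ => (hcon i).le)
          _ = _ := by simp
      omega
    obtain ⟨s, hs⟩ := this
    have h2 : monomial μ (1 : ℂ) = monomial (μ - Finsupp.single s N) 1 * X s ^ N := by
      have h5 : μ - Finsupp.single s N + Finsupp.single s N = μ := by
        ext t
        by_cases ht : t = s
        · subst ht; simp; omega
        · simp [Ne.symm ht]
      rw [X_pow_eq_monomial, monomial_mul, one_mul, h5]
    rw [h2]
    exact Ideal.mul_mem_left _ _ (hN s)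
  rw [Ideal.mem_span_range_iff_exists_fun] at hmem
  obtain ⟨c, hc⟩ := hmem
  refine ⟨fun i => homogeneousComponent (Fintype.card σ * N + e + 1 - e) (c i),
    fun i => homogeneousComponent_isHomogeneous _ _, by omega, ?_⟩
  have h3 : homogeneousComponent (Fintype.card σ * N + e + 1) (monomial μ (1 : ℂ)) = monomial μ (1 : ℂ) :=
    homogeneousComponent_eq_self (isHomogeneous_monomial _ hμ)
  rw [← h3, ← hc, map_sum]
  refine Finset.sum_congr rfl fun i _ => ?_
  exact hc_mul _ _ _ _ (hf i) (by omega)

/-- Elimination: if a homogeneous system has only the trivial zero at one parameter value, then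
this holds off the zero set of a polynomial in the parameters. -/
theorem elimination {σ τ ι : Type*} [Fintype σ] [Fintype ι] (e : ℕ)
    (f : ι → MvPolynomial σ (MvPolynomial τ ℂ))
    (hf : ∀ i, (f i).IsHomogeneous e)
    (y0 : τ → ℂ)
    (h0 : ∀ x : σ → ℂ, (∀ i, eval x (map (eval y0) (f i)) = 0) → x = 0) :
    ∃ P : MvPolynomial τ ℂ, eval y0 P ≠ 0 ∧ ∀ y, eval y P ≠ 0 →
      ∀ x : σ → ℂ, (∀ i, eval x (map (eval y) (f i)) = 0) → x = 0 := by
  classical
  obtain ⟨n, hn, hcomb⟩ := exists_homog_comb e (fun i => map (eval y0) (f i))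
    (fun i => (hf i).map _) h0
  choose! G hG1 hG2 hG3 using hcomb
  let S := Finset.finsuppAntidiag (Finset.univ : Finset σ) n
  have hS : ∀ μ : σ →₀ ℕ, μ ∈ S ↔ μ.degree = n := by
    intro μ
    simp [S, Finset.mem_finsuppAntidiag, Finsupp.degree_eq_sum]
  let h : S → MvPolynomial σ (MvPolynomial τ ℂ) := fun μ => ∑ i, map C (G μ.1 i) * f i
  let H : Matrix S S (MvPolynomial τ ℂ) := fun μ ν => coeff ν.1 (h μ)
  have hH : ∀ y : τ → ℂ, ∀ μ : S, map (eval y) (h μ) = ∑ i, G μ.1 i * map (eval y) (f i) := by
    intro y μ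
    simp only [h, map_sum, map_mul, map_map]
    refine Finset.sum_congr rfl fun i _ => ?_
    congr 1
    have : (eval y).comp (C : ℂ →+* MvPolynomial τ ℂ) = RingHom.id ℂ := by
      ext z; simp
    rw [this, map_id]
  have hdet : ∀ y : τ → ℂ, eval y H.det = (Matrix.of fun (μ ν : S) => coeff ν.1 (map (eval y) (h μ))).det := by
    intro y
    rw [RingHom.map_det]
    congr 1
  refine ⟨H.det, ?_, ?_⟩
  · rw [hdet]
    have : (Matrix.of fun (μ ν : S) => coeff ν.1 (map (eval y0) (h μ))) = 1 := by
      ext μ ν
      simp only [Matrix.of_apply]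
      rw [hH, ← hG3 μ.1 ((hS _).1 μ.2), coeff_monomial, Matrix.one_apply]
      by_cases hμν : μ = ν
      · subst hμν; simp
      · rw [if_neg (fun h => hμν (Subtype.ext h)), if_neg hμν]
    rw [this, Matrix.det_one]
    exact one_ne_zero
  · intro y hy x hx
    rw [hdet] at hy
    set HH := (Matrix.of fun (μ ν : S) => coeff ν.1 (map (eval y) (h μ))) with hHH
    have hv : HH.mulVec (fun ν : S => ∏ s, x s ^ (ν.1 s)) = 0 := by
      ext μ
      simp only [Matrix.mulVec, dotProduct, hHH, Matrix.of_apply, Pi.zero_apply]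
      have h1 : eval x (map (eval y) (h μ)) = 0 := by
        rw [hH, map_sum]
        refine Finset.sum_eq_zero fun i _ => ?_
        rw [map_mul, hx i, mul_zero]
      have h2 : (map (eval y) (h μ)).IsHomogeneous n := by
        rw [hH]
        refine IsHomogeneous.sum _ _ _ fun i _ => ?_
        have := (hG1 μ.1 ((hS _).1 μ.2) i).mul ((hf i).map (eval y))
        rwa [Nat.sub_add_cancel (hG2 μ.1 ((hS _).1 μ.2))] at this
      rw [eval_eq'] at h1
      have h3 : (map (eval y) (h μ)).support ⊆ S := by
        intro ν hν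
        rw [hS]
        by_contra hne
        rw [mem_support_iff] at hν
        exact hν (h2.coeff_eq_zero hne)
      rw [Finset.sum_subset h3 (by
        intro ν _ hν
        rw [notMem_support_iff.1 hν, zero_mul])] at h1
      rw [← h1, ← Finset.sum_coe_sort S]
    have hinj := Matrix.eq_zero_of_mulVec_eq_zero hy hv
    ext s
    have h4 : (Finsupp.single s n) ∈ S := by
      rw [hS]; simp
    have h5 := congrFun hinj ⟨_, h4⟩
    simp only [Pi.zero_apply] at h5
    rw [Finset.prod_eq_single s] at h5
    · simp only [Finsupp.single_eq_same] at h5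
      exact pow_eq_zero_iff (by omega) |>.1 h5
    · intro t _ hts
      rw [Finsupp.single_apply, if_neg (Ne.symm hts), pow_zero]
    · intro h; exact absurd (Finset.mem_univ s) h

end Pool.Agent.H93R2
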