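import Mathlib
import Pool.Agent.H93R2.Elim

set_option autoImplicit false

open MvPolynomial

namespace Pool.Agent.H93R2

/-- algebraically independent elements that are algebraic over `k` elements: at most `k` -/
theorem card_le_of_algebraic {R A : Type*} [Field R] [CommRing A] [IsDomain A] [Algebra R A]
    {ι κ : Type*} [Fintype ι] [Fintype κ] (y : ι → A) (hy : AlgebraicIndependent R y) (l : κ → A)
    (h : ∀ i, IsAlgebraic (Algebra.adjoin R (Set.range l)) (y i)) :
    Fintype.card ι ≤ Fintype.card κ := by
  have h1 : (AlgebraicIndependent.matroid R A).Indep (Set.range y) := by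
    rw [AlgebraicIndependent.matroid_indep_iff]
    exact hy.coe_range
  have h2 : Set.range y ⊆ (AlgebraicIndependent.matroid R A).closure (Set.range l) := by
    rw [AlgebraicIndependent.matroid_closure_eq]
    rintro _ ⟨i, rfl⟩
    exact h i
  have h3 := h1.encard_le_eRk_of_subset h2
  rw [Matroid.eRk_closure_eq] at h3
  have h4 := h3.trans ((AlgebraicIndependent.matroid R A).eRk_le_encard (Set.range l))
  have h5 : (Set.range y).encard = Fintype.card ι := by
    rw [← Set.image_univ, hy.injective.encard_image, Set.encard_univ]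
    simp
  have h6 : (Set.range l).encard ≤ Fintype.card κ := by
    rw [← Set.image_univ]
    refine (Set.encard_image_le _ _).trans ?_
    rw [Set.encard_univ]
    simp
  rw [h5] at h4
  exact_mod_cast h4.trans h6

theorem hc_aeval {σ τ : Type*} (g : σ → MvPolynomial τ ℂ) (w : ℕ) (hw : 0 < w)
    (hg : ∀ s, (g s).IsHomogeneous w) (c : MvPolynomial σ ℂ) (k : ℕ) :
    homogeneousComponent (w * k) (aeval g c) = aeval g (homogeneousComponent k c) := by
  conv_lhs => rw [← sum_homogeneousComponent c, map_sum, map_sum]
  have h1 : ∀ i, homogeneousComponent (w * k) (aeval g (homogeneousComponent i c)) =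
      if i = k then aeval g (homogeneousComponent k c) else 0 := by
    intro i
    have h2 : (aeval g (homogeneousComponent i c)).IsHomogeneous (w * i) :=
      (homogeneousComponent_isHomogeneous i c).aeval g hg
    rw [homogeneousComponent_of_mem h2]
    by_cases h : i = k
    · subst h; simp
    · rw [if_neg, if_neg h]
      intro h3
      exact h (Nat.eq_of_mul_eq_mul_left hw h3).symm
  simp only [h1, Finset.sum_ite_eq', Finset.mem_range]
  split_ifs with h
  · rfl
  · rw [homogeneousComponent_eq_zero _ _ (by omega), map_zero]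

/-- integrality of the coordinates over the coordinate forms that have no common zero -/
theorem isIntegral_of_zero {σ τ κ : Type*} [Fintype σ] [Fintype κ]
    (g : σ → MvPolynomial τ ℂ) (w : ℕ) (hw : 0 < w) (hg : ∀ s, (g s).IsHomogeneous w)
    (l : κ → MvPolynomial σ ℂ) (hl : ∀ t, (l t).IsHomogeneous 1)
    (h0 : ∀ x : σ → ℂ, (∀ t, eval x (l t) = 0) → (∀ p, aeval g p = 0 → eval x p = 0) → x = 0)
    (s : σ) :
    IsIntegral (Algebra.adjoin ℂ (Set.range fun t => aeval g (l t))) (g s) := by
  classical
  set S0 := Algebra.adjoin ℂ (Set.range fun t => aeval g (l t)) with hS0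
  obtain ⟨N0, hN0⟩ := exists_pow_mem (Ideal.span (Set.range l) ⊔ RingHom.ker (aeval g : MvPolynomial σ ℂ →ₐ[ℂ] _)) (by
    intro x hx
    apply h0
    · intro t
      exact hx _ (Ideal.mem_sup_left (Ideal.subset_span ⟨t, rfl⟩))
    · intro p hp
      exact hx _ (Ideal.mem_sup_right hp))
  obtain ⟨N, hN, hNpos⟩ : ∃ N, (∀ s : σ, (X s : MvPolynomial σ ℂ) ^ N ∈
      (Ideal.span (Set.range l) ⊔ RingHom.ker (aeval g : MvPolynomial σ ℂ →ₐ[ℂ] _))) ∧ 1 ≤ N := by
    refine ⟨N0 + 1, fun s => ?_, by omega⟩
    rw [pow_succ]
    exact Ideal.mul_mem_right _ _ (hN0 s)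
  -- the key representation
  have hrep : ∀ s : σ, ∃ c : κ → MvPolynomial σ ℂ, (∀ t, (c t).IsHomogeneous (N - 1)) ∧
      aeval g (X s ^ N : MvPolynomial σ ℂ) = ∑ t, aeval g (c t) * aeval g (l t) := by
    intro s
    obtain ⟨u, hu, v, hv, huv⟩ := Submodule.mem_sup.1 (hN s)
    rw [Ideal.mem_span_range_iff_exists_fun] at hu
    obtain ⟨c, hc⟩ := hu
    refine ⟨fun t => homogeneousComponent (N - 1) (c t),
      fun t => homogeneousComponent_isHomogeneous _ _, ?_⟩
    have h1 : aeval g (X s ^ N : MvPolynomial σ ℂ) = ∑ t, aeval g (c t) * aeval g (l t) := by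
      have hv' : aeval g v = 0 := hv
      rw [← huv, map_add, hv', add_zero, ← hc, map_sum]
      refine Finset.sum_congr rfl fun t _ => ?_
      rw [map_mul]
    have h2 : homogeneousComponent (w * N) (aeval g (X s ^ N : MvPolynomial σ ℂ)) =
        aeval g (X s ^ N : MvPolynomial σ ℂ) := by
      rw [hc_aeval g w hw hg]
      congr 1
      exact homogeneousComponent_eq_self (isHomogeneous_X_pow s N)
    rw [← h2, h1, map_sum]
    refine Finset.sum_congr rfl fun t _ => ?_
    have h3 : (aeval g (l t)).IsHomogeneous w := by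
      have := (hl t).aeval g hg
      rwa [mul_one] at this
    rw [hc_mul _ _ w (w * N) h3 (Nat.le_mul_of_pos_right w hNpos)]
    congr 1
    rw [← hc_aeval g w hw hg]
    congr 1
    rw [Nat.mul_sub, mul_one]
  set E := Fintype.card σ * N with hE
  -- finitely many generators
  let gens : Set (MvPolynomial τ ℂ) := (fun μ : σ →₀ ℕ => aeval g (monomial μ (1 : ℂ))) '' {μ | μ.degree ≤ E}
  have hfin : gens.Finite := by
    apply Set.Finite.image
    have : {μ : σ →₀ ℕ | μ.degree ≤ E} ⊆ ⋃ n ∈ Finset.range (E + 1), (Finset.finsuppAntidiag (Finset.univ : Finset σ) n : Set (σ →₀ ℕ)) := by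
      intro μ hμ
      simp only [Set.mem_iUnion]
      refine ⟨μ.degree, by simpa [Nat.lt_succ_iff] using hμ, ?_⟩
      simp [Finset.mem_finsuppAntidiag, Finsupp.degree_eq_sum]
    refine Set.Finite.subset ?_ this
    exact Set.Finite.biUnion (Finset.finite_toSet _) fun _ _ => Finset.finite_toSet _
  let K0 : Submodule S0 (MvPolynomial τ ℂ) := Submodule.span S0 gens
  have hCsmul : ∀ (c : ℂ) (x : MvPolynomial τ ℂ), x ∈ K0 → c • x ∈ K0 := by
    intro c x hx
    have h1 : c • x = (algebraMap ℂ S0 c) • x := by
      rw [algebraMap_smul]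
    rw [h1]
    exact K0.smul_mem _ hx
  have hmain : ∀ n : ℕ, ∀ p : MvPolynomial σ ℂ, p.IsHomogeneous n → aeval g p ∈ K0 := by
    intro n
    induction n with
    | zero =>
      intro p hp
      have h1 : p = C (coeff 0 p) := by
        rw [← totalDegree_eq_zero_iff_eq_C]
        by_cases hp0 : p = 0
        · subst hp0; simp
        · exact hp.totalDegree hp0
      rw [h1, aeval_C, Algebra.algebraMap_eq_smul_one]
      apply hCsmul
      apply Submodule.subset_span
      refine ⟨0, by simp, ?_⟩
      simp
    | succ n ih =>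
      intro p hp
      rw [p.as_sum, map_sum]
      apply K0.sum_mem
      intro μ hμ
      have hμdeg : μ.degree = n + 1 := by
        by_contra hne
        rw [mem_support_iff] at hμ
        exact hμ (hp.coeff_eq_zero hne)
      have h1 : monomial μ (coeff μ p) = C (coeff μ p) * monomial μ (1 : ℂ) := by
        rw [C_mul_monomial, mul_one]
      rw [h1, map_mul, aeval_C, ← Algebra.smul_def]
      apply hCsmul
      by_cases hle : μ.degree ≤ E
      · exact Submodule.subset_span ⟨μ, hle, rfl⟩
      · have : ∃ s, N ≤ μ s := by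
          by_contra hcon
          push Not at hcon
          have h1 : μ.degree ≤ Fintype.card σ * N := by
            rw [Finsupp.degree_eq_sum]
            calc ∑ i, μ i ≤ ∑ _i : σ, N := Finset.sum_le_sum (fun i _ => (hcon i).le)
              _ = _ := by simp
          omega
        obtain ⟨s, hs⟩ := this
        have h5 : μ - Finsupp.single s N + Finsupp.single s N = μ := by
          ext t
          by_cases ht : t = s
          · subst ht; simp; omega
          · simp [Ne.symm ht]
        have h2 : monomial μ (1 : ℂ) = monomial (μ - Finsupp.single s N) 1 * X s ^ N := by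
          rw [X_pow_eq_monomial, monomial_mul, one_mul, h5]
        have h6 : (μ - Finsupp.single s N).degree + N = n + 1 := by
          rw [← hμdeg]
          conv_rhs => rw [← h5, map_add]
          simp
        obtain ⟨c, hc1, hc2⟩ := hrep s
        rw [h2, map_mul, hc2, Finset.mul_sum]
        apply K0.sum_mem
        intro t _
        have h7 : aeval g (monomial (μ - Finsupp.single s N) (1 : ℂ)) * (aeval g (c t) * aeval g (l t)) =
            (⟨aeval g (l t), Algebra.subset_adjoin ⟨t, rfl⟩⟩ : S0) •
              aeval g (monomial (μ - Finsupp.single s N) (1 : ℂ) * c t) := by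
          rw [Subalgebra.smul_def, smul_eq_mul, map_mul]
          ring
        rw [h7]
        apply K0.smul_mem
        apply ih
        have h8 := (isHomogeneous_monomial (1 : ℂ) (rfl : (μ - Finsupp.single s N).degree = _)).mul (hc1 t)
        convert h8 using 1
        omega
  have hall : ∀ p : MvPolynomial σ ℂ, aeval g p ∈ K0 := by
    intro p
    rw [← sum_homogeneousComponent p, map_sum]
    exact K0.sum_mem fun i _ => hmain i _ (homogeneousComponent_isHomogeneous i p)
  refine isIntegral_of_smul_mem_submodule (M := MvPolynomial τ ℂ) K0 ?_ ?_ (g s) ?_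
  · intro hbot
    have h1 := hall 1
    rw [hbot, map_one, Submodule.mem_bot] at h1
    exact one_ne_zero h1
  · exact Submodule.fg_span hfin
  · intro n hn
    rw [smul_eq_mul]
    induction hn using Submodule.span_induction with
    | mem x hx =>
      obtain ⟨μ, -, rfl⟩ := hx
      have h1 : g s * aeval g (monomial μ (1 : ℂ)) = aeval g (X s * monomial μ (1 : ℂ)) := by
        rw [map_mul, aeval_X]
      show g s * aeval g (monomial μ (1 : ℂ)) ∈ K0
      rw [h1]
      exact hall _
    | zero => rw [mul_zero]; exact K0.zero_mem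
    | add x y _ _ hx hy => rw [mul_add]; exact K0.add_mem hx hy
    | smul a x _ hx =>
      rw [mul_smul_comm]
      exact K0.smul_mem a hx

end Pool.Agent.H93R2
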