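import Mathlib
import Pool.Agent.H93R2.Integral

set_option autoImplicit false

open MvPolynomial

namespace Pool.Agent.H93R2

/-- a matrix of rank at least `s` has a nonzero minor of order `s` -/
theorem exists_minor_of_rank {a b : ℕ} (A : Matrix (Fin a) (Fin b) ℂ) (s : ℕ) (h : s ≤ A.rank) :
    ∃ (ρ : Fin s → Fin a) (γ : Fin s → Fin b), (A.submatrix ρ γ).det ≠ 0 := by
  obtain ⟨f, hf, -, hfi⟩ := Submodule.exists_fun_fin_finrank_span_eq ℂ (Set.range A.col)
  have e1 : s ≤ Module.finrank ℂ (Submodule.span ℂ (Set.range A.col)) := by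
    rw [← A.rank_eq_finrank_span_cols]; exact h
  have h1 : ∀ i : Fin s, ∃ j, A.col j = f (Fin.castLE e1 i) := fun i => hf _
  choose γ hγ using h1
  have h2 : LinearIndependent ℂ (fun i : Fin s => A.col (γ i)) := by
    have : (fun i : Fin s => A.col (γ i)) = f ∘ Fin.castLE e1 := by
      ext1 i; exact hγ i
    rw [this]
    exact hfi.comp _ (Fin.castLE_injective e1)
  let B := A.submatrix id γ
  have h3 : B.rank = s := by
    rw [← Matrix.rank_transpose]
    have : LinearIndependent ℂ (B.transpose).row := h2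
    rw [this.rank_matrix, Fintype.card_fin]
  obtain ⟨f2, hf2, -, hfi2⟩ := Submodule.exists_fun_fin_finrank_span_eq ℂ (Set.range B.row)
  have e2 : s ≤ Module.finrank ℂ (Submodule.span ℂ (Set.range B.row)) := by
    rw [← B.rank_eq_finrank_span_row]; exact h3.ge
  have h4 : ∀ i : Fin s, ∃ j, B.row j = f2 (Fin.castLE e2 i) := fun i => hf2 _
  choose ρ hρ using h4
  have h5 : LinearIndependent ℂ (fun i : Fin s => B.row (ρ i)) := by
    have : (fun i : Fin s => B.row (ρ i)) = f2 ∘ Fin.castLE e2 := by
      ext1 i; exact hρ i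
    rw [this]
    exact hfi2.comp _ (Fin.castLE_injective e2)
  refine ⟨ρ, γ, ?_⟩
  have h6 : LinearIndependent ℂ (A.submatrix ρ γ).row := h5
  rw [Matrix.linearIndependent_rows_iff_isUnit, Matrix.isUnit_iff_isUnit_det, isUnit_iff_ne_zero] at h6
  exact h6

/-- generic matrix of rank at most `r` -/
noncomputable def gen (a b r : ℕ) (s : Fin a × Fin b) :
    MvPolynomial ((Fin a × Fin r) ⊕ (Fin r × Fin b)) ℂ :=
  ∑ k : Fin r, X (Sum.inl (s.1, k)) * X (Sum.inr (k, s.2))

theorem gen_homog (a b r : ℕ) (s : Fin a × Fin b) : (gen a b r s).IsHomogeneous 2 := by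
  unfold gen
  exact IsHomogeneous.sum _ _ _ fun k _ => (isHomogeneous_X _ _).mul (isHomogeneous_X _ _)

/-- the minors of order `r + 1` of a matrix of rank at most `r` vanish -/
theorem gen_minor (a b r : ℕ) (ρ : Fin (r + 1) → Fin a) (γ : Fin (r + 1) → Fin b) :
    (Matrix.of fun i j => gen a b r (ρ i, γ j)).det = 0 := by
  by_contra h
  have h1 := Matrix.rank_of_det_ne_zero h
  let U : Matrix (Fin (r + 1)) (Fin r) (MvPolynomial ((Fin a × Fin r) ⊕ (Fin r × Fin b)) ℂ) :=
    Matrix.of fun i k => X (Sum.inl (ρ i, k))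
  let W : Matrix (Fin r) (Fin (r + 1)) (MvPolynomial ((Fin a × Fin r) ⊕ (Fin r × Fin b)) ℂ) :=
    Matrix.of fun k j => X (Sum.inr (k, γ j))
  have h2 : (Matrix.of fun i j => gen a b r (ρ i, γ j)) = U * W := by
    ext1 i j
    simp [U, W, Matrix.mul_apply, gen]
  rw [h2] at h1
  have h3 := (Matrix.rank_mul_le_left U W).trans U.rank_le_card_width
  rw [h1] at h3
  simp at h3

/-- the index set of a transcendence basis -/
def idx (r a' b' : ℕ) : (Fin r × Fin (r + b')) ⊕ (Fin a' × Fin r) → Fin (r + a') × Fin (r + b') :=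
  Sum.elim (fun t => (Fin.castAdd a' t.1, t.2)) (fun t => (Fin.natAdd r t.1, Fin.castAdd b' t.2))

theorem gen_algInd (r a' b' : ℕ) :
    AlgebraicIndependent ℂ (fun d => gen (r + a') (r + b') r (idx r a' b' d)) := by
  rw [algebraicIndependent_iff]
  intro p hp
  let Δ : MvPolynomial ((Fin r × Fin (r + b')) ⊕ (Fin a' × Fin r)) ℂ :=
    (Matrix.of fun i j : Fin r => (X (Sum.inl (i, Fin.castAdd b' j)) : MvPolynomial _ ℂ)).det
  have hΔ : ∀ z, eval z Δ = (Matrix.of fun i j : Fin r => z (Sum.inl (i, Fin.castAdd b' j))).det := by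
    intro z
    simp only [Δ]
    rw [RingHom.map_det]
    congr 1
    ext i j
    simp
  have hΔ0 : Δ ≠ 0 := by
    intro h
    have h1 := hΔ (Sum.elim (fun t => if ((t.1 : ℕ)) = (t.2 : ℕ) then 1 else 0) (fun _ => 0))
    rw [h, map_zero] at h1
    have h2 : (Matrix.of fun i j : Fin r => (Sum.elim (fun t : Fin r × Fin (r + b') => if ((t.1 : ℕ)) = (t.2 : ℕ) then (1:ℂ) else 0)
        (fun _ : Fin a' × Fin r => 0)) (Sum.inl (i, Fin.castAdd b' j))) = 1 := by
      ext i j
      simp [Matrix.one_apply, Fin.ext_iff]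
    rw [h2, Matrix.det_one] at h1
    exact zero_ne_one h1
  have hprod : p * Δ = 0 := by
    apply MvPolynomial.funext
    intro z
    rw [map_mul, map_zero, hΔ]
    set A : Matrix (Fin r) (Fin r) ℂ := Matrix.of fun i j : Fin r => z (Sum.inl (i, Fin.castAdd b' j)) with hA
    by_cases hdet : A.det = 0
    · rw [hdet, mul_zero]
    · have hAu : IsUnit A.det := isUnit_iff_ne_zero.2 hdet
      let Y : Matrix (Fin a') (Fin r) ℂ := Matrix.of fun i j => z (Sum.inr (i, j))
      let U : Fin (r + a') → Fin r → ℂ :=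
        Fin.addCases (fun i0 k => (1 : Matrix (Fin r) (Fin r) ℂ) i0 k) (fun i1 k => (Y * A⁻¹) i1 k)
      let pt : (Fin (r + a') × Fin r) ⊕ (Fin r × Fin (r + b')) → ℂ :=
        Sum.elim (fun t => U t.1 t.2) (fun t => z (Sum.inl (t.1, t.2)))
      have h1 : ∀ d, eval pt (gen (r + a') (r + b') r (idx r a' b' d)) = z d := by
        rintro (⟨i, j⟩ | ⟨i, j⟩)
        · simp only [gen, idx, Sum.elim_inl, map_sum, map_mul, eval_X, pt, Sum.elim_inr, U,
            Fin.addCases_left]
          rw [Finset.sum_eq_single i]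
          · simp
          · intro k _ hk
            rw [Matrix.one_apply_ne (Ne.symm hk), zero_mul]
          · intro h; exact absurd (Finset.mem_univ _) h
        · simp only [gen, idx, Sum.elim_inl, map_sum, map_mul, eval_X, pt, Sum.elim_inr, U,
            Fin.addCases_right]
          have h2 : ((Y * A⁻¹) * A) i j = Y i j := by
            rw [Matrix.mul_assoc, Matrix.nonsing_inv_mul _ hAu, Matrix.mul_one]
          rw [Matrix.mul_apply] at h2
          exact h2
      have h2 : eval z p = eval pt (aeval (fun d => gen (r + a') (r + b') r (idx r a' b' d)) p) := by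
        rw [← AlgHom.coe_toRingHom, ← RingHom.comp_apply]
        have : ((eval pt).comp ((aeval (fun d => gen (r + a') (r + b') r (idx r a' b' d))).toRingHom :
            MvPolynomial ((Fin r × Fin (r + b')) ⊕ (Fin a' × Fin r)) ℂ →+* _)) = eval z := by
          apply MvPolynomial.ringHom_ext
          · intro c
            simp
          · intro d
            simp only [AlgHom.toRingHom_eq_coe, RingHom.coe_comp, RingHom.coe_coe,
              Function.comp_apply, aeval_X, eval_X]
            exact h1 d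
        rw [← this]
        rfl
      rw [h2, hp, map_zero, zero_mul]
  rcases mul_eq_zero.1 hprod with h | h
  · exact h
  · exact absurd h hΔ0

/-- A subspace of matrices of dimension larger than `(a - r) (b - r)` contains a nonzero matrix of
rank at most `r`. -/
theorem exists_low_rank {a b r : ℕ} (hra : r ≤ a) (hrb : r ≤ b)
    (V : Submodule ℂ (Matrix (Fin a) (Fin b) ℂ)) (hV : (a - r) * (b - r) < Module.finrank ℂ V) :
    ∃ s ∈ V, s ≠ 0 ∧ s.rank ≤ r := by
  by_contra hcon
  push Not at hcon
  obtain ⟨a', rfl⟩ := Nat.exists_eq_add_of_le hra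
  obtain ⟨b', rfl⟩ := Nat.exists_eq_add_of_le hrb
  set m := Module.finrank ℂ (Matrix (Fin (r + a')) (Fin (r + b')) ℂ ⧸ V) with hm
  have hdim : m + Module.finrank ℂ V = (r + a') * (r + b') := by
    rw [hm, Submodule.finrank_quotient_add_finrank, Module.finrank_matrix]
    simp
  let eq := (Module.finBasis ℂ (Matrix (Fin (r + a')) (Fin (r + b')) ℂ ⧸ V)).equivFun
  let L : Matrix (Fin (r + a')) (Fin (r + b')) ℂ →ₗ[ℂ] (Fin m → ℂ) := eq.toLinearMap.comp V.mkQ
  have hL : ∀ x, L x = 0 → x ∈ V := by
    intro x hx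
    have h1 : eq (V.mkQ x) = 0 := hx
    rw [LinearEquiv.map_eq_zero_iff] at h1
    simpa using h1
  let l : Fin m → MvPolynomial (Fin (r + a') × Fin (r + b')) ℂ := fun t =>
    ∑ s : Fin (r + a') × Fin (r + b'), C (L (Matrix.single s.1 s.2 1) t) * X s
  have hl : ∀ t, (l t).IsHomogeneous 1 := by
    intro t
    refine IsHomogeneous.sum _ _ _ fun s _ => ?_
    have := (isHomogeneous_C (Fin (r + a') × Fin (r + b')) (L (Matrix.single s.1 s.2 1) t)).mul
      (isHomogeneous_X ℂ s)
    rwa [zero_add] at this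
  have hleval : ∀ x t, eval x (l t) = L (Matrix.of fun i j => x (i, j)) t := by
    intro x t
    have h1 : (Matrix.of fun i j => x (i, j)) =
        ∑ s : Fin (r + a') × Fin (r + b'), x s • (Matrix.single s.1 s.2 (1 : ℂ)) := by
      ext i j
      rw [Matrix.sum_apply, Finset.sum_eq_single (i, j)]
      · simp
      · rintro ⟨i', j'⟩ _ hne
        simp only [Matrix.smul_apply, Matrix.single_apply, smul_eq_mul]
        rw [if_neg, mul_zero]
        rintro ⟨rfl, rfl⟩
        exact hne rfl
      · intro h; exact absurd (Finset.mem_univ _) h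
    rw [h1]
    simp only [l, map_sum, map_mul, eval_C, eval_X, map_smul, Pi.smul_apply, smul_eq_mul,
      Finset.sum_apply]
    refine Finset.sum_congr rfl fun s _ => ?_
    ring
  have hint := isIntegral_of_zero (gen (r + a') (r + b') r) 2 (by norm_num)
    (gen_homog (r + a') (r + b') r) l hl (by
      intro x hx1 hx2
      have h1 : (Matrix.of fun i j => x (i, j)) ∈ V := by
        apply hL
        ext t
        rw [← hleval, hx1 t]
        rfl
      by_contra hx
      have h2 : (Matrix.of fun i j => x (i, j)) ≠ 0 := by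
        intro h
        apply hx
        ext ⟨i, j⟩
        exact congrFun (congrFun h i) j
      have h3 := hcon _ h1 h2
      obtain ⟨ρ, γ, hργ⟩ := exists_minor_of_rank _ (r + 1) h3
      apply hργ
      have h4 := hx2 (Matrix.of fun i j => (X (ρ i, γ j) : MvPolynomial _ ℂ)).det (by
        rw [AlgHom.map_det]
        rw [← gen_minor (r + a') (r + b') r ρ γ]
        congr 1
        ext1 i j
        simp)
      rw [RingHom.map_det] at h4
      rw [← h4]
      congr 1
      ext i j
      simp)
  have hcard := card_le_of_algebraic _ (gen_algInd r a' b')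
    (fun t => aeval (gen (r + a') (r + b') r) (l t))
    (fun d => (hint (idx r a' b' d)).isAlgebraic)
  simp only [Fintype.card_sum, Fintype.card_prod, Fintype.card_fin, Nat.add_sub_cancel_left] at hcard hV
  have h1 : (r + a') * (r + b') = r * (r + b') + a' * r + a' * b' := by ring
  omega

end Pool.Agent.H93R2
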