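import Mathlib
import Pool.Agent.H93R2.Construct

set_option autoImplicit false

open Finset

namespace Pool.Agent.H93R2

variable {a1 a2 b1 b2 : ℕ}

/-- card of a subset of a product with large fibres -/
theorem card_prod_ge {α β : Type*} [Fintype α] [Fintype β] [DecidableEq α] [DecidableEq β]
    (T : Finset (α × β)) (hT : T.Nonempty) (m n : ℕ)
    (h1 : ∀ t ∈ T, m ≤ (univ.filter fun x : α => (x, t.2) ∈ T).card)
    (h2 : ∀ t ∈ T, n ≤ (univ.filter fun y : β => (t.1, y) ∈ T).card) : m * n ≤ T.card := by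
  obtain ⟨t0, ht0⟩ := hT
  have h3 := h2 t0 ht0
  set Y := univ.filter fun y : β => (t0.1, y) ∈ T with hY
  have h4 : ∀ y ∈ Y, m ≤ (T.filter fun t => t.2 = y).card := by
    intro y hy
    have hy' : (t0.1, y) ∈ T := by simpa [hY] using hy
    refine (h1 _ hy').trans ?_
    refine card_le_card_of_injOn (fun x => (x, y)) ?_ ?_
    · intro x hx
      simp only [coe_filter, mem_univ, true_and, Set.mem_ofPred_eq] at hx
      simp [hx]
    · intro x _ x' _ hxx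
      simpa using hxx
  calc m * n ≤ m * Y.card := Nat.mul_le_mul_left _ h3
    _ = ∑ _y ∈ Y, m := by rw [sum_const, smul_eq_mul, mul_comm]
    _ ≤ ∑ y ∈ Y, (T.filter fun t => t.2 = y).card := sum_le_sum h4
    _ ≤ ∑ y : β, (T.filter fun t => t.2 = y).card :=
        sum_le_sum_of_subset (subset_univ _)
    _ = T.card := (card_eq_sum_card_fiberwise (fun _ _ => mem_univ _)).symm

/-- main rank bound: a nonzero matrix with good slices has a large nonzero minor -/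
theorem exists_minor (D1 D2 : ℕ) (Z : Matrix (Fin a1 × Fin a2) (Fin b1 × Fin b2) ℂ) (hZ : Z ≠ 0)
    (hg1 : ∀ (i2 : Fin a2) (j2 : Fin b2), Good D1 (fun i1 j1 => Z (i1, i2) (j1, j2)))
    (hg2 : ∀ (i1 : Fin a1) (j1 : Fin b1), Good D2 (fun i2 j2 => Z (i1, i2) (j1, j2))) :
    ∃ (ρ : Fin ((D1 + 1) * (D2 + 1)) → Fin a1 × Fin a2)
      (γ : Fin ((D1 + 1) * (D2 + 1)) → Fin b1 × Fin b2), (Z.submatrix ρ γ).det ≠ 0 := by
  classical
  let key : (Fin a1 × Fin a2) × (Fin b1 × Fin b2) → ℤ ×ₗ ℤ := fun t =>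
    toLex ((((t.2.1 : ℕ) : ℤ) - ((t.1.1 : ℕ) : ℤ)), (((t.2.2 : ℕ) : ℤ) - ((t.1.2 : ℕ) : ℤ)))
  let S : Finset ((Fin a1 × Fin a2) × (Fin b1 × Fin b2)) := univ.filter fun t => Z t.1 t.2 ≠ 0
  have hS : S.Nonempty := by
    by_contra h
    rw [not_nonempty_iff_eq_empty] at h
    apply hZ
    ext i j
    by_contra hij
    have : (i, j) ∈ S := by simp [S]; exact hij
    rw [h] at this
    simp at this
  obtain ⟨t0, ht0, hmin⟩ := exists_min_image S key hS
  set c1 : ℤ := ((t0.2.1 : ℕ) : ℤ) - ((t0.1.1 : ℕ) : ℤ) with hc1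
  set c2 : ℤ := ((t0.2.2 : ℕ) : ℤ) - ((t0.1.2 : ℕ) : ℤ) with hc2
  have hmin' : ∀ (i1 : Fin a1) (i2 : Fin a2) (j1 : Fin b1) (j2 : Fin b2), Z (i1, i2) (j1, j2) ≠ 0 →
      toLex (c1, c2) ≤ toLex (((j1 : ℕ) : ℤ) - ((i1 : ℕ) : ℤ), ((j2 : ℕ) : ℤ) - ((i2 : ℕ) : ℤ)) := by
    intro i1 i2 j1 j2 h
    exact hmin ((i1, i2), (j1, j2)) (by simp [S]; exact h)
  let T : Finset (Fin a1 × Fin a2) := univ.filter fun t =>
    ∃ (j1 : Fin b1) (j2 : Fin b2), ((j1 : ℕ) : ℤ) - ((t.1 : ℕ) : ℤ) = c1 ∧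
      ((j2 : ℕ) : ℤ) - ((t.2 : ℕ) : ℤ) = c2 ∧ Z t (j1, j2) ≠ 0
  have hTmem : ∀ t, t ∈ T ↔ ∃ (j1 : Fin b1) (j2 : Fin b2), ((j1 : ℕ) : ℤ) - ((t.1 : ℕ) : ℤ) = c1 ∧
      ((j2 : ℕ) : ℤ) - ((t.2 : ℕ) : ℤ) = c2 ∧ Z t (j1, j2) ≠ 0 := by
    intro t; simp [T]
  have hTne : T.Nonempty := by
    refine ⟨t0.1, ?_⟩
    rw [hTmem]
    refine ⟨t0.2.1, t0.2.2, rfl, rfl, ?_⟩
    simpa [S] using ht0
  have hTcard : (D1 + 1) * (D2 + 1) ≤ T.card := by
    apply card_prod_ge T hTne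
    · rintro ⟨i1, i2⟩ ht
      rw [hTmem] at ht
      obtain ⟨j1, j2, h1, h2, h3⟩ := ht
      simp only at h1 h2 h3 ⊢
      have hd : dg c1 (fun i1 j1 => Z (i1, i2) (j1, j2)) ≠ 0 := by
        intro h
        have := congrFun h i1
        rw [dg_eq c1 _ i1 j1 h1] at this
        exact h3 this
      refine (support_card D1 _ hd (hg1 i2 j2 c1)).trans (card_le_card ?_)
      intro x hx
      rw [mem_filter] at hx ⊢
      refine ⟨mem_univ _, ?_⟩
      obtain ⟨j, hj1, hj2⟩ := dg_zero c1 _ x hx.2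
      rw [hTmem]
      exact ⟨j, j2, hj1, h2, hj2⟩
    · rintro ⟨i1, i2⟩ ht
      rw [hTmem] at ht
      obtain ⟨j1, j2, h1, h2, h3⟩ := ht
      simp only at h1 h2 h3 ⊢
      have hd : dg c2 (fun i2 j2 => Z (i1, i2) (j1, j2)) ≠ 0 := by
        intro h
        have := congrFun h i2
        rw [dg_eq c2 _ i2 j2 h2] at this
        exact h3 this
      refine (support_card D2 _ hd (hg2 i1 j1 c2)).trans (card_le_card ?_)
      intro x hx
      rw [mem_filter] at hx ⊢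
      refine ⟨mem_univ _, ?_⟩
      obtain ⟨j, hj1, hj2⟩ := dg_zero c2 _ x hx.2
      rw [hTmem]
      exact ⟨j1, j, h1, hj1, hj2⟩
  let TL : Finset (Fin a1 ×ₗ Fin a2) := T.map toLex.toEmbedding
  have hTLcard : (D1 + 1) * (D2 + 1) ≤ TL.card := by
    simpa [TL] using hTcard
  obtain ⟨T0, hT0, hT0card⟩ := exists_subset_card_eq hTLcard
  let r := T0.orderEmbOfFin hT0card
  have hrT : ∀ t, ofLex (r t) ∈ T := by
    intro t
    have h1 := hT0 (T0.orderEmbOfFin_mem hT0card t)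
    simp only [TL, mem_map_equiv] at h1
    exact h1
  have hex : ∀ t, ∃ j : Fin b1 × Fin b2, ((j.1 : ℕ) : ℤ) - (((ofLex (r t)).1 : ℕ) : ℤ) = c1 ∧
      ((j.2 : ℕ) : ℤ) - (((ofLex (r t)).2 : ℕ) : ℤ) = c2 ∧ Z (ofLex (r t)) j ≠ 0 := by
    intro t
    obtain ⟨j1, j2, h⟩ := (hTmem _).1 (hrT t)
    exact ⟨(j1, j2), h⟩
  choose γ hγ1 hγ2 hγ3 using hex
  refine ⟨fun t => ofLex (r t), γ, ?_⟩
  have htri : (Z.submatrix (fun t => ofLex (r t)) γ).BlockTriangular id := by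
    intro t t' htt
    simp only [id] at htt
    simp only [Matrix.submatrix_apply]
    by_contra hne
    have h1 := hmin' (ofLex (r t)).1 (ofLex (r t)).2 (γ t').1 (γ t').2 hne
    have h2 : r t' < r t := r.strictMono htt
    rw [Prod.Lex.lt_iff] at h2
    rw [Prod.Lex.toLex_le_toLex] at h1
    simp only at h1
    have g1 := hγ1 t'
    have g2 := hγ2 t'
    rcases h2 with h2 | ⟨h2, h3⟩
    · have h2' : (((ofLex (r t')).1 : ℕ)) < (((ofLex (r t)).1 : ℕ)) := h2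
      rcases h1 with h1 | ⟨h1, -⟩
      · omega
      · omega
    · have h2' : (((ofLex (r t')).1 : ℕ)) = (((ofLex (r t)).1 : ℕ)) := congrArg _ h2
      have h3' : (((ofLex (r t')).2 : ℕ)) < (((ofLex (r t)).2 : ℕ)) := h3
      rcases h1 with h1 | ⟨h1, h4⟩
      · omega
      · omega
  rw [Matrix.det_of_isUpperTriangular htri]
  exact prod_ne_zero_iff.2 fun t _ => hγ3 t

/-- the explicit pair of families -/
theorem construct (a1 b1 k1 D1 a2 b2 k2 D2 : ℕ) (h1a : D1 < a1) (h1b : D1 < b1) (h2a : D2 < a2)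
    (h2b : D2 < b2) (hk1 : k1 ≤ (a1 - D1) * (b1 - D1)) (hk2 : k2 ≤ (a2 - D2) * (b2 - D2)) :
    ∃ (M : Fin k1 → Matrix (Fin a1) (Fin b1) ℂ) (N : Fin k2 → Matrix (Fin a2) (Fin b2) ℂ),
      ∀ x : Fin k1 × Fin k2 → ℂ, x ≠ 0 →
        ∃ (ρ : Fin ((D1 + 1) * (D2 + 1)) → Fin a1 × Fin a2)
          (γ : Fin ((D1 + 1) * (D2 + 1)) → Fin b1 × Fin b2),
          ((Matrix.of fun (i : Fin a1 × Fin a2) (j : Fin b1 × Fin b2) =>
            ∑ t, x t * (M t.1 i.1 j.1 * N t.2 i.2 j.2)).submatrix ρ γ).det ≠ 0 := by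
  classical
  obtain ⟨e1⟩ : Nonempty (Fin k1 ↪ Fin (a1 - D1) × Fin (b1 - D1)) := by
    apply Function.Embedding.nonempty_of_card_le
    simpa using hk1
  obtain ⟨e2⟩ : Nonempty (Fin k2 ↪ Fin (a2 - D2) × Fin (b2 - D2)) := by
    apply Function.Embedding.nonempty_of_card_le
    simpa using hk2
  refine ⟨fun t => Mb a1 b1 D1 (e1 t).1 (e1 t).2, fun t => Mb a2 b2 D2 (e2 t).1 (e2 t).2, ?_⟩
  intro x hx
  have hgood1 : ∀ t, Good D1 (Mb a1 b1 D1 (e1 t).1 (e1 t).2) := by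
    intro t
    have := (e1 t).1.2
    have := (e1 t).2.2
    exact Mb_good _ _ _ _ _ (by omega) (by omega)
  have hgood2 : ∀ t, Good D2 (Mb a2 b2 D2 (e2 t).1 (e2 t).2) := by
    intro t
    have := (e2 t).1.2
    have := (e2 t).2.2
    exact Mb_good _ _ _ _ _ (by omega) (by omega)
  apply exists_minor
  · -- nonzero
    let S : Finset (Fin k1 × Fin k2) := univ.filter fun t => x t ≠ 0
    have hS : S.Nonempty := by
      by_contra h
      rw [not_nonempty_iff_eq_empty] at h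
      apply hx
      ext t
      by_contra ht
      have : t ∈ S := by simp [S]; exact ht
      rw [h] at this
      simp at this
    obtain ⟨t0, ht0, hmin⟩ := exists_min_image S
      (fun t => ((e1 t.1).1 : ℕ) + ((e2 t.2).1 : ℕ)) hS
    have ht0' : x t0 ≠ 0 := by simpa [S] using ht0
    intro hZ
    have hp1 : ((e1 t0.1).1 : ℕ) < a1 := by have := (e1 t0.1).1.2; omega
    have hq1 : ((e1 t0.1).2 : ℕ) < b1 := by have := (e1 t0.1).2.2; omega
    have hp2 : ((e2 t0.2).1 : ℕ) < a2 := by have := (e2 t0.2).1.2; omega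
    have hq2 : ((e2 t0.2).2 : ℕ) < b2 := by have := (e2 t0.2).2.2; omega
    have h1 := congrFun (congrFun hZ (⟨_, hp1⟩, ⟨_, hp2⟩)) (⟨_, hq1⟩, ⟨_, hq2⟩)
    simp only [Matrix.of_apply, Matrix.zero_apply] at h1
    rw [sum_eq_single t0] at h1
    · apply ht0'
      have h2 : Mb a1 b1 D1 (e1 t0.1).1 (e1 t0.1).2 ⟨_, hp1⟩ ⟨_, hq1⟩ = cf D1 0 := by
        unfold Mb
        rw [if_pos (by simp)]
        simp
      have h3 : Mb a2 b2 D2 (e2 t0.2).1 (e2 t0.2).2 ⟨_, hp2⟩ ⟨_, hq2⟩ = cf D2 0 := by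
        unfold Mb
        rw [if_pos (by simp)]
        simp
      rw [h2, h3] at h1
      rcases mul_eq_zero.1 h1 with h | h
      · exact h
      · exact absurd h (mul_ne_zero (cf_zero _) (cf_zero _))
    · intro t _ htt
      by_contra hne
      have hxt : x t ≠ 0 := left_ne_zero_of_mul hne
      have h4 := right_ne_zero_of_mul hne
      have h5 := left_ne_zero_of_mul h4
      have h6 := right_ne_zero_of_mul h4
      unfold Mb at h5 h6
      have h7 : ((e1 t.1).1 : ℕ) ≤ (e1 t0.1).1 ∧ ((e1 t.1).2 : ℕ) ≤ (e1 t0.1).2 ∧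
          ((e1 t0.1).1 : ℕ) - (e1 t.1).1 = (e1 t0.1).2 - (e1 t.1).2 := by
        by_contra hc
        exact h5 (if_neg hc)
      have h8 : ((e2 t.2).1 : ℕ) ≤ (e2 t0.2).1 ∧ ((e2 t.2).2 : ℕ) ≤ (e2 t0.2).2 ∧
          ((e2 t0.2).1 : ℕ) - (e2 t.2).1 = (e2 t0.2).2 - (e2 t.2).2 := by
        by_contra hc
        exact h6 (if_neg hc)
      have h9 := hmin t (by simp [S]; exact hxt)
      obtain ⟨h71, h72, h73⟩ := h7
      obtain ⟨h81, h82, h83⟩ := h8
      have e1e : e1 t.1 = e1 t0.1 := by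
        ext
        · show ((e1 t.1).1 : ℕ) = (e1 t0.1).1
          omega
        · show ((e1 t.1).2 : ℕ) = (e1 t0.1).2
          omega
      have e2e : e2 t.2 = e2 t0.2 := by
        ext
        · show ((e2 t.2).1 : ℕ) = (e2 t0.2).1
          omega
        · show ((e2 t.2).2 : ℕ) = (e2 t0.2).2
          omega
      exact htt (Prod.ext (e1.injective e1e) (e2.injective e2e))
    · intro h; exact absurd (mem_univ _) h
  · intro i2 j2
    have := good_sum (D := D1) (univ : Finset (Fin k1 × Fin k2))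
      (fun t => Mb a1 b1 D1 (e1 t.1).1 (e1 t.1).2)
      (fun t => x t * Mb a2 b2 D2 (e2 t.2).1 (e2 t.2).2 i2 j2) (fun t _ => hgood1 t.1)
    convert this using 3 with i1 j1
    simp only [Matrix.of_apply]
    refine sum_congr rfl fun t _ => ?_
    ring
  · intro i1 j1
    have := good_sum (D := D2) (univ : Finset (Fin k1 × Fin k2))
      (fun t => Mb a2 b2 D2 (e2 t.2).1 (e2 t.2).2)
      (fun t => x t * Mb a1 b1 D1 (e1 t.1).1 (e1 t.1).2 i1 j1) (fun t _ => hgood2 t.2)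
    convert this using 3 with i2 j2
    simp only [Matrix.of_apply]
    refine sum_congr rfl fun t _ => ?_
    ring

end Pool.Agent.H93R2
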