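import Mathlib
import Pool.Agent.H93R2.Leading
import Pool.Agent.H93R2.DetDim

set_option autoImplicit false

open MvPolynomial

namespace Pool.Agent.H93R2

theorem exists_D (a b k : ℕ) (hk : 1 ≤ k) (hk2 : k ≤ a * b) :
    ∃ D, D < a ∧ D < b ∧ k ≤ (a - D) * (b - D) ∧ (a - (D + 1)) * (b - (D + 1)) < k := by
  classical
  have hex : ∃ D, (a - (D + 1)) * (b - (D + 1)) < k := by
    refine ⟨a, ?_⟩
    rw [Nat.sub_eq_zero_of_le (by omega), zero_mul]
    omega
  have h1 := Nat.find_spec hex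
  have h2 : ∀ D' < Nat.find hex, ¬ (a - (D' + 1)) * (b - (D' + 1)) < k := fun D' h => Nat.find_min hex h
  set D := Nat.find hex
  have h3 : k ≤ (a - D) * (b - D) := by
    rcases Nat.eq_zero_or_pos D with h | h
    · rw [h]; simpa using hk2
    · have := h2 (D - 1) (by omega)
      rw [Nat.sub_add_cancel h] at this
      omega
  refine ⟨D, ?_, ?_, h3, h1⟩
  · by_contra h
    rw [Nat.sub_eq_zero_of_le (by omega : a ≤ D), zero_mul] at h3
    omega
  · by_contra h
    rw [Nat.sub_eq_zero_of_le (by omega : b ≤ D), mul_zero] at h3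
    omega

theorem det_homog {σ R : Type*} [CommRing R] {e : ℕ} (A : Matrix (Fin e) (Fin e) (MvPolynomial σ R))
    (hA : ∀ i j, (A i j).IsHomogeneous 1) : A.det.IsHomogeneous e := by
  rw [Matrix.det_apply]
  refine IsHomogeneous.sum _ _ _ fun τ _ => ?_
  have h1 : (∏ i, A (τ i) i).IsHomogeneous e := by
    have := IsHomogeneous.prod Finset.univ (fun i => A (τ i) i) (fun _ => 1) (fun i _ => hA _ _)
    simpa using this
  rcases Int.units_eq_one_or (Equiv.Perm.sign τ) with h | h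
  · rw [h, one_smul]; exact h1
  · rw [h, Units.neg_smul, one_smul]; exact h1.neg

/-- rank factorisation -/
theorem exists_factor {a b : ℕ} (A : Matrix (Fin a) (Fin b) ℂ) :
    ∃ r ≤ A.rank, ∃ (U : Matrix (Fin a) (Fin r) ℂ) (W : Matrix (Fin r) (Fin b) ℂ), A = U * W := by
  obtain ⟨f, -, hspan, -⟩ := Submodule.exists_fun_fin_finrank_span_eq ℂ (Set.range A.col)
  refine ⟨_, A.rank_eq_finrank_span_cols.ge, Matrix.of fun i k => f k i, ?_⟩
  have h1 : ∀ j, ∃ c : Fin (Module.finrank ℂ (Submodule.span ℂ (Set.range A.col))) → ℂ,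
      ∑ k, c k • f k = A.col j := by
    intro j
    rw [← Submodule.mem_span_range_iff_exists_fun, hspan]
    exact Submodule.subset_span ⟨j, rfl⟩
  choose c hc using h1
  refine ⟨Matrix.of fun k j => c j k, ?_⟩
  ext i j
  have h2 := congrFun (hc j) i
  rw [Matrix.col_apply] at h2
  rw [← h2, Matrix.mul_apply, Finset.sum_apply]
  refine Finset.sum_congr rfl fun k _ => ?_
  simp [mul_comm]

theorem rank_kron_le {a b a' b' : ℕ} (A : Matrix (Fin a) (Fin b) ℂ) (B : Matrix (Fin a') (Fin b') ℂ) :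
    (Matrix.kroneckerMap (fun u v : ℂ => u * v) A B).rank ≤ A.rank * B.rank := by
  obtain ⟨r, hr, U, W, hA⟩ := exists_factor A
  obtain ⟨r', hr', U', W', hB⟩ := exists_factor B
  have h1 : Matrix.kroneckerMap (fun u v : ℂ => u * v) A B =
      Matrix.kroneckerMap (fun u v : ℂ => u * v) U U' * Matrix.kroneckerMap (fun u v : ℂ => u * v) W W' := by
    conv_lhs => rw [hA, hB]
    exact Matrix.mul_kronecker_mul U W U' W'
  rw [h1]
  refine (Matrix.rank_mul_le_left _ _).trans ?_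
  refine (Matrix.rank_le_card_width _).trans ?_
  rw [Fintype.card_prod, Fintype.card_fin, Fintype.card_fin]
  exact Nat.mul_le_mul hr hr'

variable {a1 b1 k1 a2 b2 k2 : ℕ}

/-- the general element of the product space -/
noncomputable def TT (M : Fin k1 → Matrix (Fin a1) (Fin b1) ℂ) (N : Fin k2 → Matrix (Fin a2) (Fin b2) ℂ)
    (x : Fin k1 × Fin k2 → ℂ) : Matrix (Fin a1 × Fin a2) (Fin b1 × Fin b2) ℂ :=
  Matrix.of fun i j => ∑ t, x t * (M t.1 i.1 j.1 * N t.2 i.2 j.2)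

theorem TT_eq_sum (M : Fin k1 → Matrix (Fin a1) (Fin b1) ℂ) (N : Fin k2 → Matrix (Fin a2) (Fin b2) ℂ)
    (x : Fin k1 × Fin k2 → ℂ) :
    TT M N x = ∑ t, x t • Matrix.kroneckerMap (fun u v : ℂ => u * v) (M t.1) (N t.2) := by
  ext i j
  rw [Matrix.sum_apply]
  simp [TT]

theorem mem_span_iff (M : Fin k1 → Matrix (Fin a1) (Fin b1) ℂ) (N : Fin k2 → Matrix (Fin a2) (Fin b2) ℂ)
    (s : Matrix (Fin a1 × Fin a2) (Fin b1 × Fin b2) ℂ) :
    s ∈ Submodule.span ℂ {x : Matrix (Fin a1 × Fin a2) (Fin b1 × Fin b2) ℂ |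
                ∃ i j, x = Matrix.kroneckerMap (fun u v : ℂ => u * v) (M i) (N j)} ↔
      ∃ x, s = TT M N x := by
  have h1 : {x : Matrix (Fin a1 × Fin a2) (Fin b1 × Fin b2) ℂ |
                ∃ i j, x = Matrix.kroneckerMap (fun u v : ℂ => u * v) (M i) (N j)} =
      Set.range (fun t : Fin k1 × Fin k2 => Matrix.kroneckerMap (fun u v : ℂ => u * v) (M t.1) (N t.2)) := by
    ext y
    constructor
    · rintro ⟨i, j, rfl⟩
      exact ⟨(i, j), rfl⟩
    · rintro ⟨⟨i, j⟩, rfl⟩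
      exact ⟨i, j, rfl⟩
  rw [h1, Submodule.mem_span_range_iff_exists_fun]
  constructor
  · rintro ⟨c, hc⟩
    exact ⟨c, by rw [TT_eq_sum, hc]⟩
  · rintro ⟨c, hc⟩
    exact ⟨c, by rw [hc, TT_eq_sum]⟩

/-- the generic lower bound -/
theorem generic_lower (D1 D2 : ℕ) (h1a : D1 < a1) (h1b : D1 < b1) (h2a : D2 < a2)
    (h2b : D2 < b2) (hk1 : k1 ≤ (a1 - D1) * (b1 - D1)) (hk2 : k2 ≤ (a2 - D2) * (b2 - D2)) :
    ∃ P : MvPolynomial ((Fin k1 × Fin a1 × Fin b1) ⊕ (Fin k2 × Fin a2 × Fin b2)) ℂ,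
      P ≠ 0 ∧ ∀ (M : Fin k1 → Matrix (Fin a1) (Fin b1) ℂ) (N : Fin k2 → Matrix (Fin a2) (Fin b2) ℂ),
          MvPolynomial.eval
              (Sum.elim (fun t : Fin k1 × Fin a1 × Fin b1 => M t.1 t.2.1 t.2.2)
                (fun t : Fin k2 × Fin a2 × Fin b2 => N t.1 t.2.1 t.2.2)) P ≠ 0 →
          ∀ x, x ≠ 0 → ∃ (ρ : Fin ((D1 + 1) * (D2 + 1)) → Fin a1 × Fin a2)
            (γ : Fin ((D1 + 1) * (D2 + 1)) → Fin b1 × Fin b2),
            ((TT M N x).submatrix ρ γ).det ≠ 0 := by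
  obtain ⟨M0, N0, h0⟩ := construct a1 b1 k1 D1 a2 b2 k2 D2 h1a h1b h2a h2b hk1 hk2
  let e := (D1 + 1) * (D2 + 1)
  let mat : (Fin e → Fin a1 × Fin a2) × (Fin e → Fin b1 × Fin b2) → Matrix (Fin e) (Fin e)
      (MvPolynomial (Fin k1 × Fin k2)
        (MvPolynomial ((Fin k1 × Fin a1 × Fin b1) ⊕ (Fin k2 × Fin a2 × Fin b2)) ℂ)) := fun q =>
    Matrix.of fun i j => ∑ t : Fin k1 × Fin k2,
      C (X (Sum.inl (t.1, (q.1 i).1, (q.2 j).1)) * X (Sum.inr (t.2, (q.1 i).2, (q.2 j).2))) * X t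
  have hmat : ∀ q i j, (mat q i j).IsHomogeneous 1 := by
    intro q i j
    simp only [mat, Matrix.of_apply]
    refine IsHomogeneous.sum _ _ _ fun t _ => ?_
    have := (isHomogeneous_C (Fin k1 × Fin k2) (X (Sum.inl (t.1, (q.1 i).1, (q.2 j).1)) *
      X (Sum.inr (t.2, (q.1 i).2, (q.2 j).2)) :
      MvPolynomial ((Fin k1 × Fin a1 × Fin b1) ⊕ (Fin k2 × Fin a2 × Fin b2)) ℂ)).mul
      (isHomogeneous_X (MvPolynomial ((Fin k1 × Fin a1 × Fin b1) ⊕ (Fin k2 × Fin a2 × Fin b2)) ℂ) t)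
    rwa [zero_add] at this
  have heval : ∀ (M : Fin k1 → Matrix (Fin a1) (Fin b1) ℂ) (N : Fin k2 → Matrix (Fin a2) (Fin b2) ℂ)
      (x : Fin k1 × Fin k2 → ℂ) q,
      eval x (map (eval (Sum.elim (fun t : Fin k1 × Fin a1 × Fin b1 => M t.1 t.2.1 t.2.2)
                (fun t : Fin k2 × Fin a2 × Fin b2 => N t.1 t.2.1 t.2.2))) (mat q).det) =
      ((TT M N x).submatrix q.1 q.2).det := by
    intro M N x q
    rw [RingHom.map_det, RingHom.map_det]
    congr 1
    ext i j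
    simp only [mat, RingHom.mapMatrix_apply, Matrix.map_apply, Matrix.of_apply, map_sum, map_mul,
      map_C, map_X, eval_C, eval_X, Sum.elim_inl, Sum.elim_inr, TT, Matrix.submatrix_apply]
    refine Finset.sum_congr rfl fun t _ => ?_
    ring
  obtain ⟨P, hP1, hP2⟩ := elimination e (fun q => (mat q).det) (fun q => det_homog _ (hmat q))
    (Sum.elim (fun t : Fin k1 × Fin a1 × Fin b1 => M0 t.1 t.2.1 t.2.2)
                (fun t : Fin k2 × Fin a2 × Fin b2 => N0 t.1 t.2.1 t.2.2)) (by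
      intro x hx
      by_contra hne
      obtain ⟨ρ, γ, h⟩ := h0 x hne
      apply h
      have := hx (ρ, γ)
      rw [heval] at this
      exact this)
  refine ⟨P, ?_, ?_⟩
  · intro h
    rw [h, map_zero] at hP1
    exact hP1 rfl
  · intro M N hMN x hx
    by_contra hcon
    push Not at hcon
    apply hx
    apply hP2 _ hMN x
    intro q
    rw [heval]
    exact hcon q.1 q.2

theorem main (a1 b1 k1 a2 b2 k2 : ℕ) (hk1 : 1 ≤ k1) (hk1' : k1 ≤ a1 * b1) (hk2 : 1 ≤ k2)
    (hk2' : k2 ≤ a2 * b2) :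
      ∃ P : MvPolynomial ((Fin k1 × Fin a1 × Fin b1) ⊕ (Fin k2 × Fin a2 × Fin b2)) ℂ,
        P ≠ 0 ∧
        ∀ (M : Fin k1 → Matrix (Fin a1) (Fin b1) ℂ) (N : Fin k2 → Matrix (Fin a2) (Fin b2) ℂ),
          MvPolynomial.eval
              (Sum.elim (fun t : Fin k1 × Fin a1 × Fin b1 => M t.1 t.2.1 t.2.2)
                (fun t : Fin k2 × Fin a2 × Fin b2 => N t.1 t.2.1 t.2.2)) P ≠ 0 →
          sInf {r : ℕ | ∃ s ∈ Submodule.span ℂ
              {x : Matrix (Fin a1 × Fin a2) (Fin b1 × Fin b2) ℂ |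
                ∃ i j, x = Matrix.kroneckerMap (fun u v : ℂ => u * v) (M i) (N j)},
              s ≠ 0 ∧ s.rank = r}
            = sInf {r : ℕ | ∃ s ∈ Submodule.span ℂ (Set.range M), s ≠ 0 ∧ s.rank = r} *
              sInf {r : ℕ | ∃ s ∈ Submodule.span ℂ (Set.range N), s ≠ 0 ∧ s.rank = r} := by
  obtain ⟨D1, h1a, h1b, h1k, h1r⟩ := exists_D a1 b1 k1 hk1 hk1'
  obtain ⟨D2, h2a, h2b, h2k, h2r⟩ := exists_D a2 b2 k2 hk2 hk2'
  obtain ⟨P, hP, hlow⟩ := generic_lower D1 D2 h1a h1b h2a h2b h1k h2k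
  refine ⟨P, hP, fun M N hMN => ?_⟩
  have hl := hlow M N hMN
  -- every nonzero element has large rank
  have hrank : ∀ s ∈ Submodule.span ℂ
              {x : Matrix (Fin a1 × Fin a2) (Fin b1 × Fin b2) ℂ |
                ∃ i j, x = Matrix.kroneckerMap (fun u v : ℂ => u * v) (M i) (N j)},
              s ≠ 0 → (D1 + 1) * (D2 + 1) ≤ s.rank := by
    intro s hs hs0
    obtain ⟨x, rfl⟩ := (mem_span_iff M N s).1 hs
    have hx : x ≠ 0 := by
      rintro rfl
      apply hs0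
      rw [TT_eq_sum]
      simp
    obtain ⟨ρ, γ, h⟩ := hl x hx
    have h1 := Matrix.rank_of_det_ne_zero h
    rw [Fintype.card_fin] at h1
    rw [← h1]
    exact Matrix.rank_submatrix_le _ _ _
  -- the two families are linearly independent
  have hTTne : ∀ x, x ≠ 0 → TT M N x ≠ 0 := by
    intro x hx h
    obtain ⟨ρ, γ, h1⟩ := hl x hx
    rw [h] at h1
    apply h1
    have : (0 : Matrix (Fin a1 × Fin a2) (Fin b1 × Fin b2) ℂ).submatrix ρ γ = 0 := by
      ext i j; rfl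
    rw [this]
    have : Nonempty (Fin ((D1 + 1) * (D2 + 1))) := ⟨⟨0, by positivity⟩⟩
    exact Matrix.det_zero
  have hMind : LinearIndependent ℂ M := by
    rw [Fintype.linearIndependent_iff]
    intro c hc i
    by_contra hci
    apply hTTne (fun t => if t.2 = ⟨0, by omega⟩ then c t.1 else 0)
    · intro h
      have := congrFun h (i, ⟨0, by omega⟩)
      simp at this
      exact hci this
    · ext i j
      simp only [TT, Matrix.of_apply, Fintype.sum_prod_type, ite_mul, zero_mul]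
      have h1 := congrFun (congrFun hc i.1) j.1
      rw [Matrix.sum_apply] at h1
      simp only [Matrix.smul_apply, smul_eq_mul, Matrix.zero_apply] at h1
      simp only [Finset.sum_ite_eq', Finset.mem_univ, if_true]
      rw [Matrix.zero_apply]
      calc _ = (∑ x, c x * M x i.1 j.1) * N ⟨0, by omega⟩ i.2 j.2 := by
            rw [Finset.sum_mul]
            refine Finset.sum_congr rfl fun t _ => ?_
            ring
        _ = 0 := by rw [h1, zero_mul]
  have hNind : LinearIndependent ℂ N := by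
    rw [Fintype.linearIndependent_iff]
    intro c hc i
    by_contra hci
    apply hTTne (fun t => if t.1 = ⟨0, by omega⟩ then c t.2 else 0)
    · intro h
      have := congrFun h (⟨0, by omega⟩, i)
      simp at this
      exact hci this
    · ext i j
      simp only [TT, Matrix.of_apply, Fintype.sum_prod_type_right, ite_mul, zero_mul]
      have h1 := congrFun (congrFun hc i.2) j.2
      rw [Matrix.sum_apply] at h1
      simp only [Matrix.smul_apply, smul_eq_mul, Matrix.zero_apply] at h1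
      simp only [Finset.sum_ite_eq', Finset.mem_univ, if_true]
      rw [Matrix.zero_apply]
      calc _ = (∑ x, c x * N x i.2 j.2) * M ⟨0, by omega⟩ i.1 j.1 := by
            rw [Finset.sum_mul]
            refine Finset.sum_congr rfl fun t _ => ?_
            ring
        _ = 0 := by rw [h1, zero_mul]
  -- low rank elements
  obtain ⟨s1, hs1, hs1ne, hs1r⟩ := exists_low_rank (r := D1 + 1) (by omega) (by omega)
    (Submodule.span ℂ (Set.range M)) (by
      rw [finrank_span_eq_card hMind, Fintype.card_fin]; exact h1r)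
  obtain ⟨s2, hs2, hs2ne, hs2r⟩ := exists_low_rank (r := D2 + 1) (by omega) (by omega)
    (Submodule.span ℂ (Set.range N)) (by
      rw [finrank_span_eq_card hNind, Fintype.card_fin]; exact h2r)
  set SM := {r : ℕ | ∃ s ∈ Submodule.span ℂ (Set.range M), s ≠ 0 ∧ s.rank = r} with hSM
  set SN := {r : ℕ | ∃ s ∈ Submodule.span ℂ (Set.range N), s ≠ 0 ∧ s.rank = r} with hSN
  have hSMne : SM.Nonempty := ⟨s1.rank, s1, hs1, hs1ne, rfl⟩
  have hSNne : SN.Nonempty := ⟨s2.rank, s2, hs2, hs2ne, rfl⟩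
  have hSMle : sInf SM ≤ D1 + 1 := (Nat.sInf_le (show s1.rank ∈ SM from ⟨s1, hs1, hs1ne, rfl⟩)).trans hs1r
  have hSNle : sInf SN ≤ D2 + 1 := (Nat.sInf_le (show s2.rank ∈ SN from ⟨s2, hs2, hs2ne, rfl⟩)).trans hs2r
  obtain ⟨t1, ht1, ht1ne, ht1r⟩ := Nat.sInf_mem hSMne
  obtain ⟨t2, ht2, ht2ne, ht2r⟩ := Nat.sInf_mem hSNne
  have hkmem : Matrix.kroneckerMap (fun u v : ℂ => u * v) t1 t2 ∈ Submodule.span ℂ
              {x : Matrix (Fin a1 × Fin a2) (Fin b1 × Fin b2) ℂ |
                ∃ i j, x = Matrix.kroneckerMap (fun u v : ℂ => u * v) (M i) (N j)} := by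
    rw [mem_span_iff]
    obtain ⟨c, hc⟩ := (Submodule.mem_span_range_iff_exists_fun ℂ).1 ht1
    obtain ⟨d, hd⟩ := (Submodule.mem_span_range_iff_exists_fun ℂ).1 ht2
    refine ⟨fun t => c t.1 * d t.2, ?_⟩
    ext i j
    simp only [Matrix.kroneckerMap_apply, TT, Matrix.of_apply, Fintype.sum_prod_type]
    rw [← hc, ← hd, Matrix.sum_apply, Matrix.sum_apply, Finset.sum_mul_sum]
    refine Finset.sum_congr rfl fun i' _ => Finset.sum_congr rfl fun j' _ => ?_
    simp only [Matrix.smul_apply, smul_eq_mul]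
    ring
  have hkne : Matrix.kroneckerMap (fun u v : ℂ => u * v) t1 t2 ≠ 0 := by
    intro h
    obtain ⟨i1, j1, h1⟩ : ∃ i j, t1 i j ≠ 0 := by
      by_contra hcon
      push Not at hcon
      exact ht1ne (by ext i j; exact hcon i j)
    obtain ⟨i2, j2, h2⟩ : ∃ i j, t2 i j ≠ 0 := by
      by_contra hcon
      push Not at hcon
      exact ht2ne (by ext i j; exact hcon i j)
    have := congrFun (congrFun h (i1, i2)) (j1, j2)
    simp only [Matrix.kroneckerMap_apply, Matrix.zero_apply] at this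
    exact (mul_ne_zero h1 h2) this
  have hle : sInf {r : ℕ | ∃ s ∈ Submodule.span ℂ
              {x : Matrix (Fin a1 × Fin a2) (Fin b1 × Fin b2) ℂ |
                ∃ i j, x = Matrix.kroneckerMap (fun u v : ℂ => u * v) (M i) (N j)},
              s ≠ 0 ∧ s.rank = r} ≤ sInf SM * sInf SN := by
    have h1 : (Matrix.kroneckerMap (fun u v : ℂ => u * v) t1 t2).rank ∈ {r : ℕ | ∃ s ∈ Submodule.span ℂ
              {x : Matrix (Fin a1 × Fin a2) (Fin b1 × Fin b2) ℂ |
                ∃ i j, x = Matrix.kroneckerMap (fun u v : ℂ => u * v) (M i) (N j)},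
              s ≠ 0 ∧ s.rank = r} := ⟨_, hkmem, hkne, rfl⟩
    refine (Nat.sInf_le h1).trans ?_
    rw [← ht1r, ← ht2r]
    exact rank_kron_le t1 t2
  refine le_antisymm hle ?_
  refine (Nat.mul_le_mul hSMle hSNle).trans ?_
  refine le_csInf ⟨_, _, hkmem, hkne, rfl⟩ ?_
  rintro r ⟨s, hs, hs0, rfl⟩
  exact hrank s hs hs0

end Pool.Agent.H93R2
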